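import Pool.Agent.R82.CP.Lim

set_option autoImplicit false
open Finset Filter Topology Asymptotics
open Pool.Agent.R82.CP
open scoped Classical

namespace Pool.Agent.Results.MP_aebd38_co.ConsecutivePatterns

/-- The full threshold statement: for every pattern `π` of length `k ≥ 1` and every sequence
`m(n) ≤ n(n-1)/2` with `n^(1-1/s) ≪ m(n)` (omitted if `s = 0`) and
`n^(1-1/s') ≪ n(n-1)/2 - m(n)` (omitted if `s' = 0`), a uniformly random permutation of `n` points
with exactly `m(n)` inversions contains `π` as a consecutive pattern with probability tending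
to `1`. -/
theorem result (k : ℕ) (hk : 1 ≤ k) (π : Equiv.Perm (Fin k)) (m : ℕ → ℕ)
    (hm : ∀ n, m n ≤ n.choose 2)
    (hlow : inv π ≠ 0 →
      (fun n : ℕ => (n : ℝ) ^ (1 - 1 / (inv π : ℝ))) =o[atTop] (fun n => (m n : ℝ)))
    (hupp : k.choose 2 - inv π ≠ 0 →
      (fun n : ℕ => (n : ℝ) ^ (1 - 1 / ((k.choose 2 - inv π : ℕ) : ℝ))) =o[atTop]
        (fun n => ((n.choose 2 : ℝ) - m n))) :
    Tendsto (fun n =>
      ((univ.filter fun σ : Equiv.Perm (Fin n) => inv σ = m n ∧ HasConsec π σ).card : ℝ) /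
        ((univ.filter fun σ : Equiv.Perm (Fin n) => inv σ = m n).card : ℝ)) atTop (𝓝 1) :=
  main_limit k hk π m hm hlow hupp

end Pool.Agent.Results.MP_aebd38_co.ConsecutivePatterns
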